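import Pool.Agent.HYQ83.Core

/-!
# MP_ff4e9a_ag: abelian quotients of complete intersections

Shokurov's question (minimal log discrepancy `n - 1` implies Gorenstein) for the log
discrepancies of weighted blow-ups of abelian quotients of complete intersection singularities.
-/

open Finset

namespace Pool.Agent.Results.MP_ff4e9a_ag.LciQuotients

/-- The `α`-weight `∑ α_i m_i` of the monomial `x^m`. -/
def weight {N : ℕ} (α : Fin N → ℝ) (m : Fin N →₀ ℕ) : ℝ := ∑ i, α i * m i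

/-- The `α`-order `α(f)`: the infimum of the `α`-weights of the monomials of `f`. -/
noncomputable def order {N : ℕ} {k : Type} [Field k] (α : Fin N → ℝ)
    (f : MvPowerSeries (Fin N) k) : ℝ :=
  sInf {x | ∃ m, MvPowerSeries.coeff m f ≠ 0 ∧ x = weight α m}

/-- The log discrepancy `∑ α_i - ∑ α(f_l)` of the `α`-weighted blow-up along the complete
intersection `f_1 = … = f_e = 0`. -/
noncomputable def logDisc {N e : ℕ} {k : Type} [Field k] (α : Fin N → ℝ)
    (f : Fin e → MvPowerSeries (Fin N) k) : ℝ := (∑ i, α i) - ∑ l, order α (f l)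

/-- The weights of the quotient `𝔸^N / G` with centre the image of the origin, for a group `G` of
diagonal matrices whose elements have order dividing `r`, where `ε` is a primitive `r`-th root of
unity: the vectors `α = b / r` with `b ∈ ℤ^N`, all `b_i > 0`, and `diag (ε^(b_i)) ∈ G`. -/
def IsQuotientWeight {N : ℕ} {k : Type} [Field k] (r : ℕ) (ε : k) (G : Subgroup (Fin N → kˣ))
    (α : Fin N → ℝ) : Prop :=
  ∃ (g : Fin N → kˣ) (b : Fin N → ℤ), g ∈ G ∧ (∀ i, (g i : k) = ε ^ b i) ∧ (∀ i, 0 < b i) ∧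
    ∀ i, α i = (b i : ℝ) / r

/-- An exponent of least weight. -/
theorem exists_min {N : ℕ} {k : Type} [Field k] (f : MvPowerSeries (Fin N) k) (hf : f ≠ 0)
    (r : ℕ) (hr : 0 < r) (β : Fin N → ℤ) (hβ : ∀ i, 0 < β i) :
    ∃ m, MvPowerSeries.coeff m f ≠ 0 ∧
      order (fun i => (β i : ℝ) / r) f = (HYQ83.W β m : ℝ) / r := by
  have hex : ∃ N : ℕ, ∃ m, MvPowerSeries.coeff m f ≠ 0 ∧ HYQ83.W β m = N := by
    obtain ⟨m, hm⟩ : ∃ m, MvPowerSeries.coeff m f ≠ 0 := by
      by_contra hc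
      push Not at hc
      exact hf (MvPowerSeries.ext fun m => by rw [hc m]; simp)
    refine ⟨(HYQ83.W β m).toNat, m, hm, ?_⟩
    rw [Int.toNat_of_nonneg]
    unfold HYQ83.W
    exact Finset.sum_nonneg fun i _ => mul_nonneg (hβ i).le (by positivity)
  classical
  obtain ⟨m, hm, hmN⟩ := Nat.find_spec hex
  have hw : ∀ m : Fin N →₀ ℕ, weight (fun i => (β i : ℝ) / r) m = (HYQ83.W β m : ℝ) / r :=
    fun m => by
      unfold weight HYQ83.W
      push_cast
      rw [Finset.sum_div]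
      exact Finset.sum_congr rfl fun i _ => by ring
  refine ⟨m, hm, ?_⟩
  unfold order
  refine IsLeast.csInf_eq ⟨⟨m, hm, (hw m).symm⟩, ?_⟩
  rintro x ⟨m', hm', rfl⟩
  rw [hw m']
  have h0 : 0 ≤ HYQ83.W β m' := by
    unfold HYQ83.W
    exact Finset.sum_nonneg fun i _ => mul_nonneg (hβ i).le (by positivity)
  have h1 : Nat.find hex ≤ (HYQ83.W β m').toNat :=
    Nat.find_min' hex ⟨m', hm', by rw [Int.toNat_of_nonneg h0]⟩
  have h2 : HYQ83.W β m ≤ HYQ83.W β m' := by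
    rw [hmN]
    have h3 : ((Nat.find hex : ℕ) : ℤ) ≤ (((HYQ83.W β m').toNat : ℕ) : ℤ) := by exact_mod_cast h1
    rwa [Int.toNat_of_nonneg h0] at h3
  have hr' : (0 : ℝ) < r := by exact_mod_cast hr
  have h3 : (HYQ83.W β m : ℝ) ≤ (HYQ83.W β m' : ℝ) := by exact_mod_cast h2
  exact div_le_div_of_nonneg_right h3 hr'.le

/-- Let `G` be a finite group of diagonal matrices over a field `k`, acting on
`k[[x_1, …, x_N]]`, let `f_1, …, f_e` be non-zero semi-invariant power series with characters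
`χ_l`, all of multiplicity at least two, and put `n = N - e`.  Suppose that `G` contains no
reflection, and that no `f_l` lies in an ideal `(x_i, x_j)^2` (a consequence of the normality of
the complete intersection `Y`: `f_1 = … = f_e = 0`).  If all the log discrepancies
`∑ α_i - ∑ α(f_l)` of the weighted blow-ups of `Y / G` are at least `n - 1`, then
`det g = ∏ χ_l(g)` for all `g ∈ G`: the group fixes the generator of the canonical module of
`Y` (the residue of `dx_1 ∧ … ∧ dx_N / (f_1 ⋯ f_e)`). -/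
theorem result (k : Type) [Field k] (N e r : ℕ) (hr : 0 < r) (ε : k)
    (hε : IsPrimitiveRoot ε r) (G : Subgroup (Fin N → kˣ)) (hG : ∀ g ∈ G, g ^ r = 1)
    (f : Fin e → MvPowerSeries (Fin N) k) (χ : Fin e → (Fin N → kˣ) → k)
    (hf : ∀ l, f l ≠ 0)
    (hsemi : ∀ l, ∀ g ∈ G,
      MvPowerSeries.rescale (fun i => (g i : k)) (f l) = MvPowerSeries.C (χ l g) * f l)
    (hmult : ∀ l m, MvPowerSeries.coeff m (f l) ≠ 0 → 2 ≤ ∑ i, m i)
    (hrefl : ∀ g ∈ G, ∀ i, g i ≠ 1 → ∃ j, j ≠ i ∧ g j ≠ 1)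
    (hnorm : ∀ l i j, i ≠ j → ∃ m, MvPowerSeries.coeff m (f l) ≠ 0 ∧ m i + m j ≤ 1)
    (hmld : ∀ α, IsQuotientWeight r ε G α → (N : ℝ) - e - 1 ≤ logDisc α f) :
    ∀ g ∈ G, ∏ i, (g i : k) = ∏ l, χ l g := by
  classical
  intro g hg
  have hrz : (0 : ℤ) < r := by exact_mod_cast hr
  have hrR : (0 : ℝ) < r := by exact_mod_cast hr
  haveI : NeZero r := ⟨hr.ne'⟩
  have hε0 : ε ≠ 0 := by
    rintro rfl
    have h1 := hε.pow_eq_one
    rw [zero_pow hr.ne'] at h1
    exact zero_ne_one h1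
  -- exponents of `g`
  have hexp : ∀ i, ∃ a : ℕ, ε ^ a = (g i : k) := fun i => by
    have h1 : (g i : k) ^ r = 1 := by
      have := congrFun (hG g hg) i
      rw [Pi.pow_apply, Pi.one_apply] at this
      rw [← Units.val_pow_eq_pow_val, this, Units.val_one]
    obtain ⟨a, -, ha⟩ := hε.eq_pow_of_pow_eq_one h1
    exact ⟨a, ha⟩
  choose a ha using hexp
  have hpow : ∀ x : ℕ, ε ^ x = 1 ↔ (r : ℤ) ∣ (x : ℤ) := fun x => by
    rw [hε.pow_eq_one_iff_dvd]; exact Int.natCast_dvd_natCast.symm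
  have hzpow : ∀ x : ℤ, (r : ℤ) ∣ x → ε ^ x = 1 := fun x hx => by
    obtain ⟨y, rfl⟩ := hx
    rw [zpow_mul, zpow_natCast, hε.pow_eq_one, one_zpow]
  have hgi : ∀ i, g i ≠ 1 ↔ ¬ (r : ℤ) ∣ (a i : ℤ) := fun i => by
    rw [← hpow, ha i, Ne, Units.val_eq_one]
  have hreflg : ∀ i, ¬ (r : ℤ) ∣ (a i : ℤ) → ∃ l, l ≠ i ∧ ¬ (r : ℤ) ∣ (a l : ℤ) := fun i hi => by
    obtain ⟨l, hl, hl'⟩ := hrefl g hg i ((hgi i).2 hi)
    exact ⟨l, hl, (hgi l).1 hl'⟩
  -- semi-invariance in terms of exponents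
  have hS : ∀ l m, MvPowerSeries.coeff m (f l) ≠ 0 → ε ^ (∑ i, a i * m i) = χ l g := by
    intro l m hm
    have h1 := congrArg (MvPowerSeries.coeff m) (hsemi l g hg)
    rw [MvPowerSeries.coeff_rescale, MvPowerSeries.coeff_C_mul] at h1
    have h2 := mul_right_cancel₀ hm h1
    have h3 : (m.prod fun i e => (g i : k) ^ e) = ε ^ (∑ i, a i * m i) := by
      rw [Finsupp.prod_fintype _ _ (fun i => by simp), ← Finset.prod_pow_eq_pow_sum]
      exact Finset.prod_congr rfl fun i _ => by rw [pow_mul, ha i]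
    rw [← h3]; exact h2
  -- the two weights
  set β : Fin N → ℤ := fun i => if (r : ℤ) ∣ (a i : ℤ) then (r : ℤ) else (a i : ℤ) % r
    with hβ
  set β' : Fin N → ℤ := fun i => if (r : ℤ) ∣ (a i : ℤ) then (r : ℤ) else r - (a i : ℤ) % r
    with hβ'
  have hmodpos : ∀ i, ¬ (r : ℤ) ∣ (a i : ℤ) → 0 < (a i : ℤ) % r := fun i hi => by
    have h1 := Int.emod_nonneg (a i : ℤ) hrz.ne'
    have h2 : (a i : ℤ) % r ≠ 0 := fun h0 => hi (Int.dvd_of_emod_eq_zero h0)
    omega
  have hβpos : ∀ i, 0 < β i := fun i => by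
    simp only [hβ]; split_ifs with hd
    · exact hrz
    · exact hmodpos i hd
  have hβ'pos : ∀ i, 0 < β' i := fun i => by
    simp only [hβ']; split_ifs with hd
    · exact hrz
    · have := Int.emod_lt_of_pos (a i : ℤ) hrz; omega
  have hq0 : IsQuotientWeight r ε G (fun _ => ((r : ℤ) : ℝ) / r) := by
    refine ⟨1, fun _ => (r : ℤ), G.one_mem, fun i => ?_, fun _ => hrz, fun i => rfl⟩
    rw [Pi.one_apply, Units.val_one, hzpow _ (dvd_refl _)]
  have hq1 : IsQuotientWeight r ε G (fun i => (β i : ℝ) / r) := by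
    refine ⟨g, β, hg, fun i => ?_, hβpos, fun i => rfl⟩
    have hd : (r : ℤ) ∣ β i - a i := by
      simp only [hβ]; split_ifs with hd
      · exact dvd_sub (dvd_refl _) hd
      · have h1 := Int.emod_add_mul_ediv (a i : ℤ) r
        exact ⟨-((a i : ℤ) / r), by linarith⟩
    have h1 : β i = (β i - a i) + (a i : ℤ) := by ring
    rw [h1, zpow_add₀ hε0, hzpow _ hd, one_mul, zpow_natCast, ha i]
  have hq2 : IsQuotientWeight r ε G (fun i => (β' i : ℝ) / r) := by
    refine ⟨g⁻¹, β', G.inv_mem hg, fun i => ?_, hβ'pos, fun i => rfl⟩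
    have hd : (r : ℤ) ∣ β' i + a i := by
      simp only [hβ']; split_ifs with hd
      · exact dvd_add (dvd_refl _) hd
      · have h1 := Int.emod_add_mul_ediv (a i : ℤ) r
        exact ⟨1 + (a i : ℤ) / r, by linarith⟩
    have h1 : β' i = (β' i + a i) - (a i : ℤ) := by ring
    rw [h1, zpow_sub₀ hε0, hzpow _ hd, zpow_natCast, ha i, Pi.inv_apply, Units.val_inv_eq_inv_val,
      one_div]
  -- at most one equation
  have he1 : e ≤ 1 := by
    have h1 := hmld _ hq0
    unfold logDisc at h1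
    have h2 : ∀ l, (2 : ℝ) ≤ order (fun _ : Fin N => ((r : ℤ) : ℝ) / r) (f l) := fun l => by
      obtain ⟨m, hm, hom⟩ := exists_min (f l) (hf l) r hr (fun _ => (r : ℤ)) (fun _ => hrz)
      rw [hom]
      have h3 : HYQ83.W (fun _ : Fin N => (r : ℤ)) m = r * ((∑ i, m i : ℕ) : ℤ) := by
        unfold HYQ83.W; push_cast; rw [Finset.mul_sum]
      rw [h3, le_div_iff₀ hrR]
      have h4 : (2 : ℝ) ≤ ((∑ i, m i : ℕ) : ℝ) := by exact_mod_cast hmult l m hm
      push_cast at h4 ⊢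
      nlinarith
    have h3 : (∑ l : Fin e, (2 : ℝ)) ≤
        ∑ l, order (fun _ : Fin N => ((r : ℤ) : ℝ) / r) (f l) :=
      Finset.sum_le_sum fun l _ => h2 l
    have h4 : (∑ _i : Fin N, ((r : ℤ) : ℝ) / r) = N := by
      have : ((r : ℤ) : ℝ) / r = 1 := by push_cast; exact div_self hrR.ne'
      rw [Finset.sum_congr rfl fun i _ => this]; simp
    rw [h4] at h1
    simp only [Finset.sum_const, Finset.card_univ, Fintype.card_fin, nsmul_eq_mul] at h3
    have h5 : (e : ℝ) ≤ 1 := by linarith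
    exact_mod_cast h5
  have hprodg : ∏ i, (g i : k) = ε ^ (∑ i, a i) := by
    rw [← Finset.prod_pow_eq_pow_sum]; exact Finset.prod_congr rfl fun i _ => (ha i).symm
  rcases (by omega : e = 0 ∨ e = 1) with rfl | rfl
  · -- quotients of affine space
    have hconv : ∀ γ : Fin N → ℤ,
        (N : ℝ) - (0 : ℕ) - 1 ≤ logDisc (fun i => (γ i : ℝ) / r) f →
        (r : ℤ) * ((N : ℤ) - 1) ≤ ∑ i, γ i := by
      intro γ h2
      unfold logDisc at h2
      rw [← Finset.sum_div] at h2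
      simp only [Finset.univ_eq_empty, Finset.sum_empty, sub_zero, Nat.cast_zero] at h2
      rw [le_div_iff₀ hrR] at h2
      have h3 : (((r : ℤ) * ((N : ℤ) - 1) : ℤ) : ℝ) ≤ ((∑ i, γ i : ℤ) : ℝ) := by
        push_cast
        linarith
      exact_mod_cast h3
    have hmain := HYQ83.core0 (ι := Fin N) (N : ℤ) (r : ℤ) hrz (by simp)
      (fun i => (a i : ℤ)) hreflg β β' (fun i => rfl) (fun i => rfl)
      (hconv β (hmld _ hq1)) (hconv β' (hmld _ hq2))
    rw [hprodg, Finset.univ_eq_empty (α := Fin 0), Finset.prod_empty, hpow]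
    push_cast
    exact hmain
  · -- hypersurfaces
    have hsum1 : ∀ α : Fin N → ℝ, logDisc α f = (∑ i, α i) - order α (f 0) := fun α => by
      unfold logDisc; simp
    obtain ⟨u, hu, hou⟩ := exists_min (f 0) (hf 0) r hr β hβpos
    obtain ⟨u', hu', hou'⟩ := exists_min (f 0) (hf 0) r hr β' hβ'pos
    have hconv : ∀ (γ : Fin N → ℤ) (v : Fin N →₀ ℕ),
        order (fun i => (γ i : ℝ) / r) (f 0) = (HYQ83.W γ v : ℝ) / r →
        (N : ℝ) - (1 : ℕ) - 1 ≤ logDisc (fun i => (γ i : ℝ) / r) f →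
        (r : ℤ) * (((N : ℤ) - 1) - 1) + HYQ83.W γ v ≤ ∑ i, γ i := by
      intro γ v h1 h2
      rw [hsum1, h1, ← Finset.sum_div, ← sub_div, le_div_iff₀ hrR] at h2
      have h3 : (((r : ℤ) * (((N : ℤ) - 1) - 1) + HYQ83.W γ v : ℤ) : ℝ)
          ≤ ((∑ i, γ i : ℤ) : ℝ) := by
        push_cast at h2 ⊢
        linarith
      exact_mod_cast h3
    set c : ℕ := ∑ i, a i * u i with hc
    have hSc : ∀ m, MvPowerSeries.coeff m (f 0) ≠ 0 →
        (r : ℤ) ∣ HYQ83.W (fun i => (a i : ℤ)) m - c := by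
      intro m hm
      have h1 : ε ^ (∑ i, a i * m i) = ε ^ c := by rw [hS 0 m hm, hc, hS 0 u hu]
      have h4 := (HYQ83.pow_mod hr hε (∑ i, a i * m i) c).1 h1
      have h5 : ((∑ i, a i * m i : ℕ) : ℤ) ≡ (c : ℤ) [ZMOD r] := by
        rw [Int.natCast_modEq_iff]; exact h4
      have h6 : HYQ83.W (fun i => (a i : ℤ)) m = ((∑ i, a i * m i : ℕ) : ℤ) := by
        unfold HYQ83.W; push_cast; rfl
      rw [h6]
      exact h5.symm.dvd
    have hmain := HYQ83.core (ι := Fin N) ((N : ℤ) - 1) (r : ℤ) hrz (by simp)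
      (fun i => (a i : ℤ)) (c : ℤ) {v | ∃ m, MvPowerSeries.coeff m (f 0) ≠ 0 ∧ v = ⇑m}
      ⟨u, u, hu, rfl⟩
      (by rintro v ⟨m, hm, rfl⟩; exact hmult 0 m hm)
      (by rintro v ⟨m, hm, rfl⟩; exact hSc m hm)
      hreflg
      (fun i j hij => by
        obtain ⟨m, hm, hm'⟩ := hnorm 0 i j hij
        exact ⟨m, ⟨m, hm, rfl⟩, hm'⟩)
      β β' (fun i => rfl) (fun i => rfl) u u' ⟨u, hu, rfl⟩ ⟨u', hu', rfl⟩
      (hconv β u hou (hmld _ hq1)) (hconv β' u' hou' (hmld _ hq2))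
    rw [hprodg, Fin.prod_univ_one, ← hS 0 u hu]
    have h7 : ((∑ i, a i : ℕ) : ℤ) - (c : ℤ) = (∑ i, (a i : ℤ)) - c := by push_cast; rfl
    rw [← h7] at hmain
    have h8 : (c : ℤ) ≡ ((∑ i, a i : ℕ) : ℤ) [ZMOD r] := (Int.modEq_iff_dvd).2 hmain
    have h9 : c ≡ ∑ i, a i [MOD r] := (Int.natCast_modEq_iff).1 h8
    exact (HYQ83.pow_mod hr hε _ _).2 h9.symm

end Pool.Agent.Results.MP_ff4e9a_ag.LciQuotients
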